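import Mathlib
import Pool.Agent.Zk73.OP.B
import Pool.Agent.H715R2.Uncountable
import Pool.Agent.H905R2.OppD
import Pool.Agent.Y327.Full

/-! # MP_77d073_nt: Oppenheim's conclusion is decided on long segments of one direction

Let `n ≥ 3` and let `L₁, …, L_n` be real linear forms with `|det L| = V` whose product `F` is at
least `ν` in absolute value at the nonzero integer points. Let `T > (n! / n ^ n) V`, or more generally
let `T` be such that every product of `n` linear forms with the same absolute determinant takes a
value of absolute value `< T` at some nonzero integer point. There is a constant `C = C(n, V, ν, T)`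
with the following property. To an integer point `x ≠ 0` belongs the vector
`λ(x) = (log |L_k(x)|)_k`, whose sum is `log |F(x)|`, so it is near the hyperplane `Σ = 0`. Let `θ` be a
vector with sum zero and more than `n / q` different coordinates, `q` the least prime factor of `n`
(if `n` is prime: `θ ≠ 0`), and let `I_j = b_j + [0, l_j] θ` be segments in the hyperplane with
direction `θ` and lengths `l_j → ∞`, anywhere. Consider the limit values of `|F(x)|`, when
`λ(x)` is at distance at most `C` from `I_j`, `j → ∞`.

If there is an irreducible RS-matrix whose invariant planes are the hyperplanes `L_i = 0`, the limit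
values below `T` form a finite set. Otherwise they form an uncountable set. So Oppenheim's conclusion
for `L` is decided by the small values near arbitrarily long segments of one single direction, e.g.
near the ray of `θ`.

The starting file `DirectionValues` has a cone `|λ(x) - s θ| ≤ δ s` about the ray instead of windows
of bounded size. There the set of the limits of the systems `a L γ` is invariant under the whole
diagonal group; here only under the one-parameter group of `θ`. We take a minimal set of this
one-parameter group. If there are countably many limit values, by Baire's theorem and local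
determination it has a point `h₀` whose neighbours in the minimal set are of the form `a h₀` with
diagonal `a`. Since `h₀` is recurrent under the one-parameter group, it has an automorph with
logarithm near `s θ`, `s` large, so with more than `n / q` different eigenvalues. Hence a row of `h₀`
is in a field of degree `n`, and the isolation theorem of Cassels and Swinnerton-Dyer gives the
result. -/

set_option autoImplicit false

open Filter Topology

namespace Pool.Agent.Results.MP_77d073_nt.SegmentValues

variable {n : ℕ}

/-- the product of the linear forms at an integer point -/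
noncomputable def F (L : Fin n → Fin n → ℝ) (p : Fin n → ℤ) : ℝ := ∏ i, ∑ j, L i j * (p j : ℝ)

/-- the systems with absolute determinant `V` and product at least `ν` in absolute value at the
nonzero integer points -/
def System (n : ℕ) (V ν : ℝ) : Set (Fin n → Fin n → ℝ) :=
  {L | |(Matrix.of L).det| = V ∧ ∀ p : Fin n → ℤ, p ≠ 0 → ν ≤ |F L p|}

/-- there is `A ∈ SL(n, ℤ)` with irreducible characteristic polynomial and real eigenvalues whose
invariant planes are the hyperplanes `L i = 0` -/
def HasMatrix (L : Fin n → Fin n → ℝ) : Prop :=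
  ∃ A : Matrix (Fin n) (Fin n) ℤ,
    A.det = 1 ∧
    Irreducible (A.charpoly.map (Int.castRingHom ℚ)) ∧
    (∀ z : ℂ, Polynomial.aeval z A.charpoly = 0 → z.im = 0) ∧
    ∀ i : Fin n, ∀ x : Fin n → ℝ, ∑ j, L i j * x j = 0 →
      ∑ j, L i j * ((A.map (Int.cast : ℤ → ℝ)).mulVec x) j = 0

/-- `T > (n! / n ^ n) V`, or more generally every product of `n` linear forms in `n` variables of
absolute determinant `V` takes a value of absolute value `< T` at a nonzero integer point -/
def Admissible (n : ℕ) (V T : ℝ) : Prop :=
  (n.factorial : ℝ) * V < (n : ℝ) ^ n * T ∨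
    ∀ h : Fin n → Fin n → ℝ, |(Matrix.of h).det| = V → ∃ x : Fin n → ℤ, x ≠ 0 ∧ |F h x| < T

/-- The limit values of `|F(x)|` at the integer points `x ≠ 0` for which the vector of the numbers
`log |L_k(x)|` is at distance at most `C` from the segment `b_j + [0, l_j] θ`, for `j → ∞`. -/
def LimitValues (θ : Fin n → ℝ) (b : ℕ → Fin n → ℝ) (l : ℕ → ℝ) (C : ℝ)
    (L : Fin n → Fin n → ℝ) : Set ℝ :=
  {t | ∀ (ε : ℝ) (N : ℕ), 0 < ε → ∃ (j : ℕ) (s : ℝ) (x : Fin n → ℤ), N ≤ j ∧ 0 ≤ s ∧ s ≤ l j ∧
    x ≠ 0 ∧ (∀ k, |Real.log |∑ i, L k i * (x i : ℝ)| - (b j k + s * θ k)| ≤ C) ∧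
    |(|F L x| - t)| < ε}

theorem result (n : ℕ) (hn : 3 ≤ n) (V ν T : ℝ) (hV : 0 < V) (hν : 0 < ν)
    (hT : Admissible n V T) :
    ∃ C : ℝ, ∀ L ∈ System n V ν, ∀ θ : Fin n → ℝ, ∑ k, θ k = 0 →
      n / n.minFac < (Finset.univ.image θ).card →
      ∀ (b : ℕ → Fin n → ℝ) (l : ℕ → ℝ), (∀ j, ∑ k, b j k = 0) → Tendsto l atTop atTop →
        (HasMatrix L → {t : ℝ | t < T ∧ t ∈ LimitValues θ b l C L}.Finite) ∧
        ({t : ℝ | t < T ∧ t ∈ LimitValues θ b l C L}.Countable → HasMatrix L) := by
  have hT' : ∀ h : Matrix (Fin n) (Fin n) ℝ, |h.det| = V →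
      ∃ m : Fin n → ℤ, m ≠ 0 ∧ |H715R2.FF h (H715R2.iR m)| < T := by
    rcases hT with hT | hT
    · exact fun h hh => H715R2.mink_prod (by omega) V T hV hT h hh
    · exact fun h hh => hT h hh
  obtain ⟨C, hC⟩ := Pool.Agent.Zk73.OP.segments hn hV hν hT'
  refine ⟨C, fun L hL θ hθ hθ2 b l hb hl => ⟨?_, fun hcount => ?_⟩⟩
  · rintro ⟨A, -, hirr, -, hinv⟩
    have hdet : (Matrix.of L).det ≠ 0 := by
      intro h0
      have h1 := hL.1
      rw [h0, abs_zero] at h1
      exact hV.ne h1
    have hint : H715R2.PropInt (Matrix.of L) :=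
      Pool.Agent.Y327.propInt_of_opp hn hdet hν hL.2 hirr hinv
    obtain ⟨c, hc, hz⟩ := H715R2.values_of_propInt hint
    have hc' : 0 < |c| := abs_pos.2 hc
    -- the multiples of `|c|` form a closed set
    have hcl : IsClosed (Set.range fun z : ℤ => |c| * (z : ℝ)) := by
      have h2 : Topology.IsClosedEmbedding (fun z : ℤ => |c| * (z : ℝ)) :=
        (Homeomorph.mulLeft₀ |c| hc'.ne').isClosedEmbedding.comp Int.isClosedEmbedding_coe_real
      exact h2.isClosed_range
    refine ((Set.finite_Icc (0 : ℤ) ⌈T / |c|⌉).image fun z : ℤ => |c| * (z : ℝ)).subset ?_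
    rintro t ⟨htT, ht⟩
    have hmem : t ∈ Set.range fun z : ℤ => |c| * (z : ℝ) := by
      rw [← hcl.closure_eq, Metric.mem_closure_iff]
      intro ε hε
      obtain ⟨-, -, x, -, -, -, -, -, hx⟩ := ht ε 0 hε
      obtain ⟨z, hz⟩ := hz x
      refine ⟨_, ⟨|z|, rfl⟩, ?_⟩
      rw [dist_comm, Real.dist_eq]
      have h1 : |F L x| = |c| * ((|z| : ℤ) : ℝ) := by
        have h2 : F L x = c * z := hz
        rw [h2, abs_mul, Int.cast_abs]
      simp only
      rw [← h1]
      exact hx
    obtain ⟨z, rfl⟩ := hmem
    have h0 : 0 ≤ |c| * (z : ℝ) := by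
      by_contra hneg
      push Not at hneg
      obtain ⟨-, -, x, -, -, -, -, -, hx⟩ := ht (-(|c| * (z : ℝ))) 0 (by linarith)
      have h1 := (abs_lt.1 hx).2
      have h2 := abs_nonneg (F L x)
      simp only at h1
      linarith
    refine ⟨z, ⟨?_, ?_⟩, rfl⟩
    · have h1 : (0 : ℝ) ≤ z := nonneg_of_mul_nonneg_right h0 hc'
      exact_mod_cast h1
    · have h1 : (z : ℝ) ≤ T / |c| := by
        rw [le_div_iff₀ hc', mul_comm]
        exact htT.le
      exact_mod_cast h1.trans (Int.le_ceil _)
  · have hdet : (Matrix.of L).det ≠ 0 := by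
      intro h0
      have h1 := hL.1
      rw [h0, abs_zero] at h1
      exact hV.ne h1
    exact Pool.Agent.H905R2.Opp.opp_of_propInt (by omega)
      (Matrix.linearIndependent_rows_iff_isUnit.2
        ((Matrix.isUnit_iff_isUnit_det _).2 (isUnit_iff_ne_zero.2 hdet)))
      ⟨ν, hν, hL.2⟩ (hC (Matrix.of L) hL.1 hL.2 θ hθ hθ2 b l hb hl hcount)

end Pool.Agent.Results.MP_77d073_nt.SegmentValues
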