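import Mathlib
import Pool.Agent.Zk73.OP.S3
import Pool.Agent.Results.MP_77d073_nt.ReturnFreeClasses

/-! # MP_77d073_nt (three forms): the small values of a counterexample at the scale `η`

Let `L 1, L 2, L 3` be real linear forms in three variables with determinant `±1` and product `F` at
least `ε > 0` in absolute value at the nonzero integer points. Let `T > 2 / 9`, or more generally let
`T` be such that every product of three linear forms with determinant `±1` takes a value of absolute
value `< T` at some nonzero integer point. There are `κ > 0` and `C`, depending only on `ε` and `T`,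
such that for every `η < 1 / 2` there are a length `D` and a finite set `S` of such systems, which all
satisfy Oppenheim's conclusion, with the following property. If `L` is such a system which is not
equivalent to an element of `S`, then every path in the plane with steps at most one and with end
points at distance at least `D` passes through a point `(s, t)` for which there are at least
`κ (log (1 / η)) ^ (1 / 3)` integer points `p ≠ 0` with `log |L 1 (p)|`, `log |L 2 (p)|`,
`log |L 3 (p)|` at distance at most `C log (1 / η)` from `s + t`, `-s`, `-t`, at which the values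
`|F(p)|` are less than `T` and differ pairwise by at least `η`.

This holds for all counterexamples to Oppenheim's conjecture, with the same `D`. So `K` values below
`T` of a counterexample are separated by `exp (- C' K ^ 3)`, and the set of these values has covering
numbers at least `κ' (log (1 / η)) ^ (1 / 3)`, for all `η < 1 / 2`. The starting file
`SmallValueClasses` and my `WindowClasses` have an unspecified `ε(K)` from a compactness argument.

The proof combines the starting file `ReturnFreeClasses` (boxes of side `κ log (1 / δ)` without near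
returns at the scale `δ` on long paths) with a quantitative form of the local determination of a
system by six small values: two reduced systems of the same determinant near to each other whose
values at six suitable integer points differ by at most `η` differ, up to a diagonal matrix, by
`O(η)`. So a box without near returns has `(κ log (1 / δ))²` different lists of six values rounded to
the nearest element of a maximal `η`-separated set of values. -/

set_option autoImplicit false

namespace Pool.Agent.Results.MP_77d073_nt.SeparatedValues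

/-- the product of the linear forms with the coefficients `L i`, at an integer point -/
noncomputable def F (L : Fin 3 → Fin 3 → ℝ) (p : Fin 3 → ℤ) : ℝ :=
  ∏ i : Fin 3, ∑ j : Fin 3, L i j * (p j : ℝ)

/-- Oppenheim's conclusion: there is an irreducible RS-matrix whose invariant planes are the
hyperplanes `L i = 0`. -/
def HasMatrix (L : Fin 3 → Fin 3 → ℝ) : Prop :=
  ∃ A : Matrix (Fin 3) (Fin 3) ℤ,
    A.det = 1 ∧
    Irreducible (A.charpoly.map (Int.castRingHom ℚ)) ∧
    (∀ z : ℂ, Polynomial.aeval z A.charpoly = 0 → z.im = 0) ∧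
    ∀ i : Fin 3, ∀ x : Fin 3 → ℝ, ∑ j, L i j * x j = 0 →
      ∑ j, L i j * ((A.map (Int.cast : ℤ → ℝ)).mulVec x) j = 0

/-- the systems with determinant `±1` and product at least `ε` in absolute value at the nonzero
integer points -/
def System (ε : ℝ) : Set (Fin 3 → Fin 3 → ℝ) :=
  {L | |(Matrix.of L).det| = 1 ∧ ∀ p : Fin 3 → ℤ, p ≠ 0 → ε ≤ |F L p|}

/-- `L` is obtained from `L'` by a diagonal matrix of determinant `±1` and a unimodular integral
substitution -/
def Equivalent (L L' : Fin 3 → Fin 3 → ℝ) : Prop :=
  ∃ (c : Fin 3 → ℝ) (γ : Matrix (Fin 3) (Fin 3) ℤ), |∏ i, c i| = 1 ∧ |γ.det| = 1 ∧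
    ∀ i j, L i j = c i * ∑ k, L' i k * (γ k j : ℝ)

/-- `T > 3! / 3 ^ 3 = 2 / 9`, or more generally every product of three linear forms of determinant
`±1` takes a value of absolute value `< T` at a nonzero integer point -/
def Admissible (T : ℝ) : Prop :=
  2 / 9 < T ∨ ∀ L : Fin 3 → Fin 3 → ℝ, |(Matrix.of L).det| = 1 →
    ∃ p : Fin 3 → ℤ, p ≠ 0 ∧ |F L p| < T

/-- There are at least `K` integer points `p ≠ 0` for which the vector of the numbers `log |L i (p)|`
is at distance at most `R` from `(s + t, -s, -t)` (maximum norm), at which the values `|F(p)|` are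
less than `T` and differ pairwise by at least `η`. -/
def ManyValues (L : Fin 3 → Fin 3 → ℝ) (T η K R s t : ℝ) : Prop :=
  ∃ X : Finset (Fin 3 → ℤ), K ≤ X.card ∧
    (∀ p ∈ X, p ≠ 0 ∧ |F L p| < T ∧
      ∀ i, |Real.log |∑ j, L i j * (p j : ℝ)| - ![s + t, -s, -t] i| ≤ R) ∧
    ∀ p ∈ X, ∀ p' ∈ X, p ≠ p' → η ≤ |(|F L p| - |F L p'|)|

/-- **Main result.** -/
theorem result (ε T : ℝ) (hε : 0 < ε) (hT : Admissible T) : ∃ κ C : ℝ, 0 < κ ∧
    ∀ η : ℝ, 0 < η → η < 1 / 2 →
    ∃ (D : ℝ) (S : Set (Fin 3 → Fin 3 → ℝ)), S.Finite ∧
      (∀ L ∈ S, L ∈ System ε ∧ HasMatrix L) ∧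
      ∀ L ∈ System ε, (HasMatrix L ∧ ∃ L' ∈ S, Equivalent L L') ∨
        ∀ (s t : ℕ → ℝ) (n : ℕ),
          (∀ k, k < n → |s (k + 1) - s k| ≤ 1 ∧ |t (k + 1) - t k| ≤ 1) →
          D ≤ max |s n - s 0| |t n - t 0| →
          ∃ k ≤ n, ManyValues L T η (κ * Real.log (1 / η) ^ ((1 : ℝ) / 3))
            (C * Real.log (1 / η)) (s k) (t k) := by
  classical
  have hT' : ∀ h : Matrix (Fin 3) (Fin 3) ℝ, |h.det| = 1 →
      ∃ m : Fin 3 → ℤ, m ≠ 0 ∧ |H715R2.FF h (H715R2.iR m)| < T := by
    rcases hT with hT | hT
    · refine fun h hh => H715R2.mink_prod (by omega) 1 T one_pos ?_ h hh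
      simp only [Nat.factorial]
      norm_num
      linarith
    · exact fun h hh => hT h hh
  obtain ⟨κ₀, hκ₀, H0⟩ := ReturnFreeClasses.result ε hε
  obtain ⟨κ, C, K, hκ, hK, H1⟩ := Pool.Agent.Zk73.OP.sep_values hε hT' hκ₀
  have hK0 : 0 < K := by linarith
  refine ⟨κ, C, hκ, fun η hη hη2 => ?_⟩
  by_cases hcase : K ^ 2 * η ≤ 1
  · have hδ0 : 0 < K * η := by positivity
    have hδ1 : K * η < 1 := by
      rcases hK.eq_or_lt with h | h
      · rw [← h]; linarith
      · nlinarith
    obtain ⟨D, S, hS, hSm, hD⟩ := H0 (K * η) hδ0 hδ1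
    refine ⟨D, S, hS, hSm, fun L hL => ?_⟩
    rcases hD L hL with h | h
    · exact Or.inl h
    · right
      intro s t n hstep hfar
      obtain ⟨k, hk, hfree⟩ := h s t n hstep hfar
      refine ⟨k, hk, H1 (Matrix.of L) hL.1 hL.2 η hη hη2 (s k) (t k) fun _ => ?_⟩
      intro x hx y hy x' hx' y' hy' hne
      rintro ⟨u, γ, hγ, h1, h2, h3⟩
      refine hfree x hx y hy x' hx' y' hy' hne ⟨u, γ, hγ, ?_, h2, h3⟩
      have he : ∀ a b : ℝ, ReturnFreeClasses.frame L a b =
          Matrix.diagonal (fun i => Real.exp (-(Pool.Agent.Zk73.OP.pos a b i))) * Matrix.of L := by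
        intro a b
        unfold ReturnFreeClasses.frame Pool.Agent.Zk73.OP.pos
        congr 2
        funext i
        fin_cases i <;> simp
      rw [he, he]
      exact h1
  · refine ⟨0, ∅, Set.finite_empty, fun L hL => absurd hL (Set.notMem_empty L), fun L hL => ?_⟩
    right
    intro s t n _ _
    exact ⟨0, Nat.zero_le _, H1 (Matrix.of L) hL.1 hL.2 η hη hη2 (s 0) (t 0)
      fun h => absurd h hcase⟩

end Pool.Agent.Results.MP_77d073_nt.SeparatedValues
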