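import Mathlib
import Pool.Agent.Zk73.OP.Y
import Pool.Agent.H905R2.OppD

/-! # MP_77d073_nt: separated small values in every bounded set of windows, uniformly

Let `n ≥ 3`, `V, ν > 0`, and let `T > (n! / n ^ n) V`, or more generally let `T` be such that every
product of `n` real linear forms with absolute determinant `V` takes a value of absolute value `< T`
at some nonzero integer point. Consider the systems `L` of `n` real linear forms with `|det L| = V`
whose product `F` has absolute value at least `ν` at the nonzero integer points. To an integer point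
`x ≠ 0` belongs the vector `λ(x) = (log |L_k(x)|)_k`. There are `κ > 0` and `C`, depending only on
`n, V, ν, T`, with the following property.

For every `K` and `ρ` there are `ε > 0` and a finite set `S` of such systems, which all satisfy
Oppenheim's conclusion, such that for every system `L` which is not equivalent to an element of `S`
(under diagonal matrices of determinant `±1` and `GL_n(ℤ)`) and every finite set `P` of vectors of
sum zero, of diameter at most `ρ`, with separated elements and at least `K ^ (n² - n) / κ` elements: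
there are `K` integer points `x ≠ 0` with `λ(x)` at distance at most `C` from `P`, at which the values
`|F(x)|` are at most `T - ε` and differ pairwise by at least `ε`.

Here separated means: all differences have more than `n / q` coordinates which differ pairwise by at
least `log 9`, `q` the least prime factor of `n` (`n` prime: two coordinates). For instance `P` may
consist of `K ^ (n² - n) / κ` equidistant points of a segment with a direction which has more than
`n / q` different coordinates, at any place.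

This holds in particular for all counterexamples to Oppenheim's conjecture, with the same `ε`; it is
unconditional for the systems with Oppenheim's conclusion. The starting file `SmallValueClasses`
has boxes of an unspecified side `N(K)` instead of windows at `K ^ (n² - n) / κ` arbitrary
positions. -/

set_option autoImplicit false

open Filter Topology

namespace Pool.Agent.Results.MP_77d073_nt.WindowClasses

variable {n : ℕ}

/-- the product of the linear forms at an integer point -/
noncomputable def F (L : Fin n → Fin n → ℝ) (p : Fin n → ℤ) : ℝ := ∏ i, ∑ j, L i j * (p j : ℝ)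

/-- the systems with absolute determinant `V` and product at least `ν` in absolute value at the
nonzero integer points -/
def System (n : ℕ) (V ν : ℝ) : Set (Fin n → Fin n → ℝ) :=
  {L | |(Matrix.of L).det| = V ∧ ∀ p : Fin n → ℤ, p ≠ 0 → ν ≤ |F L p|}

/-- there is `A ∈ SL(n, ℤ)` with irreducible characteristic polynomial and real eigenvalues whose
invariant planes are the hyperplanes `L i = 0` -/
def HasMatrix (L : Fin n → Fin n → ℝ) : Prop :=
  ∃ A : Matrix (Fin n) (Fin n) ℤ,
    A.det = 1 ∧
    Irreducible (A.charpoly.map (Int.castRingHom ℚ)) ∧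
    (∀ z : ℂ, Polynomial.aeval z A.charpoly = 0 → z.im = 0) ∧
    ∀ i : Fin n, ∀ x : Fin n → ℝ, ∑ j, L i j * x j = 0 →
      ∑ j, L i j * ((A.map (Int.cast : ℤ → ℝ)).mulVec x) j = 0

/-- `T > (n! / n ^ n) V`, or more generally every product of `n` linear forms in `n` variables of
absolute determinant `V` takes a value of absolute value `< T` at a nonzero integer point -/
def Admissible (n : ℕ) (V T : ℝ) : Prop :=
  (n.factorial : ℝ) * V < (n : ℝ) ^ n * T ∨
    ∀ h : Fin n → Fin n → ℝ, |(Matrix.of h).det| = V → ∃ x : Fin n → ℤ, x ≠ 0 ∧ |F h x| < T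

/-- `L` is obtained from `L'` by a diagonal matrix of determinant `±1` and a unimodular integral
substitution -/
def Equivalent (L L' : Fin n → Fin n → ℝ) : Prop :=
  ∃ (c : Fin n → ℝ) (γ : Matrix (Fin n) (Fin n) ℤ), |∏ i, c i| = 1 ∧ |γ.det| = 1 ∧
    ∀ i j, L i j = c i * ∑ k, L' i k * (γ k j : ℝ)

/-- more than `n / q` coordinates differ pairwise by at least `log 9`, `q` the least prime factor
of `n` -/
def Spread (v : Fin n → ℝ) : Prop :=
  ∃ I : Finset (Fin n), n / n.minFac < I.card ∧
    ∀ i ∈ I, ∀ k ∈ I, i ≠ k → Real.log 9 ≤ |v i - v k|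

/-- There are `K` integer points `x ≠ 0`, for which the vector of the numbers `log |L_k(x)|` is at
distance at most `C` from an element of `P`, at which the values of `|F|` are at most `T - ε` and
differ pairwise by at least `ε`. -/
def ManyValues (L : Fin n → Fin n → ℝ) (P : Finset (Fin n → ℝ)) (K : ℕ) (C T ε : ℝ) : Prop :=
  ∃ x : Fin K → Fin n → ℤ, (∀ j, x j ≠ 0) ∧
    (∀ j, ∃ z ∈ P, ∀ k, |Real.log |∑ i, L k i * (x j i : ℝ)| - z k| ≤ C) ∧
    (∀ j, |F L (x j)| ≤ T - ε) ∧
    ∀ j j', j ≠ j' → ε ≤ abs (abs (F L (x j)) - abs (F L (x j')))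

theorem result (n : ℕ) (hn : 3 ≤ n) (V ν T : ℝ) (hV : 0 < V) (hν : 0 < ν)
    (hT : Admissible n V T) :
    ∃ κ C : ℝ, 0 < κ ∧ ∀ (K : ℕ) (ρ : ℝ), ∃ (ε : ℝ) (S : Set (Fin n → Fin n → ℝ)),
      0 < ε ∧ S.Finite ∧ (∀ L ∈ S, L ∈ System n V ν ∧ HasMatrix L) ∧
      ∀ L ∈ System n V ν, (HasMatrix L ∧ ∃ L' ∈ S, Equivalent L L') ∨
        ∀ P : Finset (Fin n → ℝ), (∀ z ∈ P, ∑ k, z k = 0) →
          (∀ z ∈ P, ∀ z' ∈ P, ∀ k, |z k - z' k| ≤ ρ) →
          (∀ z ∈ P, ∀ z' ∈ P, z ≠ z' → Spread (z - z')) →
          (K : ℝ) ^ (n ^ 2 - n) ≤ κ * P.card → ManyValues L P K C T ε := by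
  classical
  have hT' : ∀ h : Matrix (Fin n) (Fin n) ℝ, |h.det| = V →
      ∃ m : Fin n → ℤ, m ≠ 0 ∧ |H715R2.FF h (H715R2.iR m)| < T := by
    rcases hT with hT | hT
    · exact fun h hh => H715R2.mink_prod (by omega) V T hV hT h hh
    · exact fun h hh => hT h hh
  have hmat : ∀ L ∈ System n V ν, H715R2.PropInt (Matrix.of L) → HasMatrix L := by
    intro L hL hP
    have hdet : (Matrix.of L).det ≠ 0 := by
      intro h0
      have h1 := hL.1
      rw [h0, abs_zero] at h1
      exact hV.ne h1
    exact Pool.Agent.H905R2.Opp.opp_of_propInt (by omega)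
      (Matrix.linearIndependent_rows_iff_isUnit.2
        ((Matrix.isUnit_iff_isUnit_det _).2 (isUnit_iff_ne_zero.2 hdet)))
      ⟨ν, hν, hL.2⟩ hP
  obtain ⟨κ, C, hκ, H⟩ := Pool.Agent.Zk73.OP.windows hn hV hν hT'
  refine ⟨κ, C + 1, hκ, fun K ρ => ?_⟩
  rcases Nat.eq_zero_or_pos K with hK | hK
  · subst hK
    exact ⟨1, ∅, one_pos, Set.finite_empty, by simp, fun L _ => Or.inr fun P _ _ _ _ =>
      ⟨fun j => j.elim0, fun j => j.elim0, fun j => j.elim0, fun j => j.elim0,
        fun j => j.elim0⟩⟩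
  -- the number of positions
  set M : ℕ := ⌈(K : ℝ) ^ (n ^ 2 - n) / κ⌉₊ with hM
  have hKR : (0 : ℝ) < K := by exact_mod_cast hK
  have hM0 : 0 < M := Nat.ceil_pos.2 (by positivity)
  have hKM : (K : ℝ) ^ (n ^ 2 - n) ≤ κ * M := by
    have h1 : (K : ℝ) ^ (n ^ 2 - n) / κ ≤ M := Nat.le_ceil _
    rwa [div_le_iff₀ hκ, mul_comm] at h1
  obtain ⟨N, S, hS, hSm, hN⟩ := Pool.Agent.N759.UC.finite_classes n V ν
    (fun g N => ∃ q : Fin M → Fin n → ℝ, (∀ z, ∑ k, q z k = 0) ∧
      (∀ z z' k, |q z k - q z' k| ≤ ρ) ∧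
      (∀ z z', z ≠ z' → Pool.Agent.Zk73.OP.Spread (q z - q z')) ∧
      ¬ Pool.Agent.Zk73.OP.ManyW g q K (C + 1) T (1 / ((N : ℝ) + 1)))
    (fun g N hN hg hnu hbad => by
      choose q hq0 hqρ hqs hq using hbad
      exact Pool.Agent.Zk73.OP.classes_seq hn hV hν
        (fun g hg hnu ι _ _ q hq0 hP hsp => (H g hg hnu ι q hq0).2 hP hsp)
        K M hM0 hKM ρ g hg hnu N hN q hq0 hqρ hqs hq)
  refine ⟨1 / ((N : ℝ) + 1), S, by positivity, hS, fun L hL => ?_, fun L hL => ?_⟩
  · obtain ⟨h1, h2, h3⟩ := hSm L hL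
    exact ⟨⟨h1, h2⟩, hmat L ⟨h1, h2⟩ h3⟩
  by_cases hbad : ∃ q : Fin M → Fin n → ℝ, (∀ z, ∑ k, q z k = 0) ∧
      (∀ z z' k, |q z k - q z' k| ≤ ρ) ∧
      (∀ z z', z ≠ z' → Pool.Agent.Zk73.OP.Spread (q z - q z')) ∧
      ¬ Pool.Agent.Zk73.OP.ManyW (Matrix.of L) q K (C + 1) T (1 / ((N : ℝ) + 1))
  · left
    obtain ⟨h1, g', hg', c, γ, hc, hγ, hcγ⟩ := hN (Matrix.of L) hL.1 hL.2 hbad
    refine ⟨hmat L hL h1, g', hg', c, γ, hc, hγ, fun i j => ?_⟩
    have h2 := congrFun (congrFun hcγ i) j
    rw [Matrix.mul_assoc, Matrix.diagonal_mul, Matrix.mul_apply] at h2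
    exact h2
  · right
    intro P hP0 hPρ hPs hPc
    have hcard : M ≤ P.card := by
      rw [hM, Nat.ceil_le, div_le_iff₀ hκ, mul_comm]
      exact hPc
    obtain ⟨P', hP', hP'c⟩ := Finset.exists_subset_card_eq hcard
    have e : Fin M ≃ P' := (Fintype.equivFinOfCardEq (by rw [Fintype.card_coe, hP'c])).symm
    by_contra hcon
    refine hbad ⟨fun z => (e z : Fin n → ℝ), fun z => hP0 _ (hP' (e z).2),
      fun z z' k => hPρ _ (hP' (e z).2) _ (hP' (e z').2) k, fun z z' hzz => ?_, ?_⟩
    · exact hPs _ (hP' (e z).2) _ (hP' (e z').2) fun h => hzz (e.injective (Subtype.ext h))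
    · rintro ⟨x, h1, h2, h3, h4⟩
      refine hcon ⟨x, h1, fun j => ?_, h3, h4⟩
      obtain ⟨z, hz⟩ := h2 j
      exact ⟨e z, hP' (e z).2, hz⟩

end Pool.Agent.Results.MP_77d073_nt.WindowClasses
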