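import Mathlib
import Pool.Agent.Zk73.OP.X
import Pool.Agent.H905R2.OppD

/-! # MP_77d073_nt: the number of small values in an arbitrary set of windows

Let `n ≥ 3` and let `L₁, …, L_n` be real linear forms with `|det L| = V` whose product `F` is at
least `ν` in absolute value at the nonzero integer points. Let `T > (n! / n ^ n) V`, or more generally
let `T` be such that every product of `n` linear forms with the same absolute determinant takes a
value of absolute value `< T` at some nonzero integer point. To an integer point `x ≠ 0` belongs the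
vector `λ(x) = (log |L_k(x)|)_k` near the hyperplane `H` of the vectors with sum zero. There are `κ > 0`
and `C`, depending only on `n, V, ν, T`, such that for every finite set `P ⊆ H` of positions,
however far apart, and the number `w` of the different values `|F(x)| < T` at the points `x` with
`λ(x)` at distance at most `C` from `P`:

1. `κ |P| ≤ |Z| w ^ (n² - n)` for a set `Z ⊆ P` such that for some `z₀ ∈ P` all differences
   `z₀ - z`, `z ∈ Z`, are up to `log 3` the logarithms of automorphs of `L`.
2. If `L` is a counterexample to Oppenheim's conjecture, and if the differences of different elements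
   of `P` have more than `n / q` coordinates which differ pairwise by at least `log 9` (`q` the least
   prime factor of `n`; if `n` is prime, it is enough that they have a coordinate of absolute value at
   least `log 9`), then `κ |P| ≤ w ^ (n² - n)`.

So a counterexample has small values everywhere: `M` windows of a fixed size, at arbitrary separated
positions, contain at least `(κ M) ^ (1 / (n² - n))` different values below `T`; and on the other
hand Oppenheim's conclusion for `L` follows from the values in the windows of one such set `P`.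
The starting file `ValuesTimesAutomorphs` counts the values in a whole box of side `x`, that is in
the windows of all `x ^ (n - 1)` positions of the box. -/

set_option autoImplicit false

open Filter Topology

namespace Pool.Agent.Results.MP_77d073_nt.WindowValues

variable {n : ℕ}

/-- the product of the linear forms at an integer point -/
noncomputable def F (L : Fin n → Fin n → ℝ) (p : Fin n → ℤ) : ℝ := ∏ i, ∑ j, L i j * (p j : ℝ)

/-- the systems with absolute determinant `V` and product at least `ν` in absolute value at the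
nonzero integer points -/
def System (n : ℕ) (V ν : ℝ) : Set (Fin n → Fin n → ℝ) :=
  {L | |(Matrix.of L).det| = V ∧ ∀ p : Fin n → ℤ, p ≠ 0 → ν ≤ |F L p|}

/-- there is `A ∈ SL(n, ℤ)` with irreducible characteristic polynomial and real eigenvalues whose
invariant planes are the hyperplanes `L i = 0` -/
def HasMatrix (L : Fin n → Fin n → ℝ) : Prop :=
  ∃ A : Matrix (Fin n) (Fin n) ℤ,
    A.det = 1 ∧
    Irreducible (A.charpoly.map (Int.castRingHom ℚ)) ∧
    (∀ z : ℂ, Polynomial.aeval z A.charpoly = 0 → z.im = 0) ∧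
    ∀ i : Fin n, ∀ x : Fin n → ℝ, ∑ j, L i j * x j = 0 →
      ∑ j, L i j * ((A.map (Int.cast : ℤ → ℝ)).mulVec x) j = 0

/-- `T > (n! / n ^ n) V`, or more generally every product of `n` linear forms in `n` variables of
absolute determinant `V` takes a value of absolute value `< T` at a nonzero integer point -/
def Admissible (n : ℕ) (V T : ℝ) : Prop :=
  (n.factorial : ℝ) * V < (n : ℝ) ^ n * T ∨
    ∀ h : Fin n → Fin n → ℝ, |(Matrix.of h).det| = V → ∃ x : Fin n → ℤ, x ≠ 0 ∧ |F h x| < T

/-- The values `|F(x)| < T` at the integer points `x ≠ 0` for which the vector of the numbers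
`log |L_k(x)|` is at distance at most `C` from an element of `P`. -/
def Values (L : Fin n → Fin n → ℝ) (P : Finset (Fin n → ℝ)) (C T : ℝ) : Set ℝ :=
  {t | ∃ z ∈ P, ∃ x : Fin n → ℤ, x ≠ 0 ∧
    (∀ k, |Real.log |∑ i, L k i * (x i : ℝ)| - z k| ≤ C) ∧ |F L x| = t ∧ t < T}

/-- `c` is a positive automorph of `L` -/
def Automorph (L : Fin n → Fin n → ℝ) (c : Fin n → ℝ) : Prop :=
  (∀ i, 0 < c i) ∧ ∃ A : Matrix (Fin n) (Fin n) ℤ, A.det = 1 ∧
    ∀ (i : Fin n) (y : Fin n → ℝ),
      ∑ j, L i j * ((A.map (Int.cast : ℤ → ℝ)).mulVec y) j = c i * ∑ j, L i j * y j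

/-- more than `n / q` coordinates differ pairwise by at least `log 9`, `q` the least prime factor
of `n` -/
def Spread (v : Fin n → ℝ) : Prop :=
  ∃ I : Finset (Fin n), n / n.minFac < I.card ∧
    ∀ i ∈ I, ∀ k ∈ I, i ≠ k → Real.log 9 ≤ |v i - v k|

lemma WV_eq (L : Fin n → Fin n → ℝ) (P : Finset (Fin n → ℝ)) (C T : ℝ) :
    Pool.Agent.Zk73.OP.WV (Matrix.of L) (fun z : P => (z : Fin n → ℝ)) C T = Values L P C T := by
  ext t
  constructor
  · rintro ⟨z, x, h⟩
    exact ⟨z, z.2, x, h⟩
  · rintro ⟨z, hz, x, h⟩
    exact ⟨⟨z, hz⟩, x, h⟩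

theorem result (n : ℕ) (hn : 3 ≤ n) (V ν T : ℝ) (hV : 0 < V) (hν : 0 < ν)
    (hT : Admissible n V T) :
    ∃ κ C : ℝ, 0 < κ ∧ ∀ L ∈ System n V ν, ∀ P : Finset (Fin n → ℝ), P.Nonempty →
      (∀ z ∈ P, ∑ k, z k = 0) →
      -- 1. values and automorphs
      (∃ Z ⊆ P, ∃ z₀ ∈ P, κ * P.card ≤ Z.card * ((Values L P C T).ncard : ℝ) ^ (n ^ 2 - n) ∧
        ∀ z ∈ Z, ∃ c : Fin n → ℝ, Automorph L c ∧
          ∀ i, |Real.log (c i) - (z₀ i - z i)| < Real.log 3) ∧
      -- 2. counterexamples
      (¬ HasMatrix L → (∀ z ∈ P, ∀ z' ∈ P, z ≠ z' → Spread (z - z')) →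
        κ * P.card ≤ ((Values L P C T).ncard : ℝ) ^ (n ^ 2 - n)) := by
  classical
  have hT' : ∀ h : Matrix (Fin n) (Fin n) ℝ, |h.det| = V →
      ∃ m : Fin n → ℤ, m ≠ 0 ∧ |H715R2.FF h (H715R2.iR m)| < T := by
    rcases hT with hT | hT
    · exact fun h hh => H715R2.mink_prod (by omega) V T hV hT h hh
    · exact fun h hh => hT h hh
  obtain ⟨κ, C, hκ, H⟩ := Pool.Agent.Zk73.OP.windows hn hV hν hT'
  refine ⟨κ, C, hκ, fun L hL P hP hsum => ?_⟩
  have hdet : (Matrix.of L).det ≠ 0 := by
    intro h0
    have h1 := hL.1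
    rw [h0, abs_zero] at h1
    exact hV.ne h1
  have : Nonempty P := hP.to_subtype
  obtain ⟨H1, H2⟩ := H (Matrix.of L) hL.1 hL.2 P (fun z : P => (z : Fin n → ℝ))
    (fun z => hsum z z.2)
  rw [Fintype.card_coe, WV_eq] at H1 H2
  constructor
  · obtain ⟨Z, z₀, h1, h2⟩ := H1
    refine ⟨Z.map ⟨Subtype.val, Subtype.val_injective⟩, fun z hz => ?_, z₀, z₀.2, ?_,
      fun z hz => ?_⟩
    · obtain ⟨z', -, rfl⟩ := Finset.mem_map.1 hz
      exact z'.2
    · rw [Finset.card_map]
      exact h1
    · obtain ⟨z', hz', rfl⟩ := Finset.mem_map.1 hz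
      obtain ⟨δ, b, hb, hδ, hu⟩ := h2 z' hz'
      have hb0 : ∀ i, 0 < b i := fun i => lt_trans (by norm_num) (hb i).1
      have hc0 : ∀ i, 0 < b i * Real.exp ((z₀ : Fin n → ℝ) i - (z' : Fin n → ℝ) i) := fun i =>
        mul_pos (hb0 i) (Real.exp_pos _)
      refine ⟨fun i => b i * Real.exp ((z₀ : Fin n → ℝ) i - (z' : Fin n → ℝ) i),
        ⟨hc0, δ, ?_, fun i y => ?_⟩, fun i => ?_⟩
      · -- the determinant is positive
        have h3 := congrArg Matrix.det hδ
        rw [Matrix.det_mul, Matrix.det_mul, Matrix.det_diagonal, H715R2.det_zR, mul_comm] at h3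
        have h4 := mul_right_cancel₀ hdet h3
        have h5 : (0 : ℝ) < δ.det := by
          rw [h4]
          exact Finset.prod_pos fun i _ => hc0 i
        rcases Int.isUnit_iff.1 hu with h6 | h6
        · exact h6
        · rw [h6] at h5
          norm_num at h5
      · have h3 := congrArg (fun M : Matrix (Fin n) (Fin n) ℝ => M.mulVec y i) hδ
        simp only [← Matrix.mulVec_mulVec, Matrix.mulVec_diagonal] at h3
        exact h3
      · rw [Real.log_mul (hb0 i).ne' (Real.exp_pos _).ne', Real.log_exp]
        have e : Real.log (b i) + ((z₀ : Fin n → ℝ) i - (z' : Fin n → ℝ) i) -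
            ((z₀ : Fin n → ℝ) i - ((⟨Subtype.val, Subtype.val_injective⟩ :
              P ↪ (Fin n → ℝ)) z') i) = Real.log (b i) := by
          simp
        rw [e, abs_lt]
        constructor
        · have h3 := Real.log_lt_log (by norm_num) (hb i).1
          rw [one_div, Real.log_inv] at h3
          exact h3
        · exact Real.log_lt_log (hb0 i) (hb i).2
  · intro hM hsp
    refine H2 (fun hP => hM ?_) (fun z z' hzz => hsp z z.2 z' z'.2 fun h => hzz (Subtype.ext h))
    exact Pool.Agent.H905R2.Opp.opp_of_propInt (by omega)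
      (Matrix.linearIndependent_rows_iff_isUnit.2
        ((Matrix.isUnit_iff_isUnit_det _).2 (isUnit_iff_ne_zero.2 hdet)))
      ⟨ν, hν, hL.2⟩ hP

end Pool.Agent.Results.MP_77d073_nt.WindowValues
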